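import Mathlib

set_option autoImplicit false

/-!
# Baker's constant is at least `log 13 / log 3 = 2.33...`

The equation `p = 3 q + 2 r` (the admissible quadruple `(1, -3, -2, 0)`) has no solution in primes
with `p < 13`: the prime `q` cannot be `2` because then `p` would be even, so `q ≥ 3`, `r ≥ 2`.
-/

namespace Pool.Agent.Results.MP_3923f3_nt.BakerLower

/-- The quadruple `(a, b, c, d)` is admissible. -/
def Admissible (a b c d : ℤ) : Prop :=
  a ≠ 0 ∧ b ≠ 0 ∧ c ≠ 0 ∧ ¬ (0 < a ∧ 0 < b ∧ 0 < c) ∧ ¬ (a < 0 ∧ b < 0 ∧ c < 0) ∧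
    Even (a + b + c - d) ∧ Int.gcd a (Int.gcd b c) = 1 ∧ Int.gcd d (Int.gcd a b) = 1 ∧
    Int.gcd d (Int.gcd a c) = 1 ∧ Int.gcd d (Int.gcd b c) = 1

/-- `m(a, b, c) = max(3, |a|, |b|, |c|)`. -/
def maxCoeff (a b c : ℤ) : ℤ := max 3 (max |a| (max |b| |c|))

/-- The real number `μ` is good: for every admissible quadruple the equation
`a p + b q + c r = d` has a solution in primes with `max(p, q, r) ≤ 3 |d| + m(a, b, c) ^ μ`. -/
def Good (μ : ℝ) : Prop :=
  ∀ a b c d : ℤ, Admissible a b c d → ∃ p q r : ℕ, p.Prime ∧ q.Prime ∧ r.Prime ∧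
    a * p + b * q + c * r = d ∧
    ((max p (max q r) : ℕ) : ℝ) ≤ 3 * |(d : ℝ)| + (maxCoeff a b c : ℝ) ^ μ

/-- Baker's constant `M = inf {μ : μ is good}`. -/
noncomputable def bakerConstant : ℝ := sInf {μ : ℝ | Good μ}

/-- **Theorem.** Every good `μ` satisfies `μ ≥ log 13 / log 3 = 2.33...`; consequently Baker's
constant (the infimum of the good `μ`) is not equal to `1`. -/
theorem result : (∀ μ : ℝ, Good μ → Real.log 13 / Real.log 3 ≤ μ) ∧ bakerConstant ≠ 1 := by
  have hlog3 : 0 < Real.log 3 := Real.log_pos (by norm_num)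
  have key : ∀ μ : ℝ, Good μ → Real.log 13 / Real.log 3 ≤ μ := by
    intro μ hμ
    have hadm : Admissible 1 (-3) (-2) 0 := by
      refine ⟨by norm_num, by norm_num, by norm_num, by norm_num, by norm_num, ?_, ?_, ?_, ?_, ?_⟩
      · exact ⟨-2, by norm_num⟩
      all_goals decide
    obtain ⟨p, q, r, hp, hq, hr, heq, hle⟩ := hμ 1 (-3) (-2) 0 hadm
    have h1 : p = 3 * q + 2 * r := by
      have : (p : ℤ) = 3 * q + 2 * r := by linarith
      exact_mod_cast this
    have hq3 : 3 ≤ q := by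
      rcases hq.two_le.lt_or_eq with h | h
      · exact h
      · exfalso
        have h2 : p = 2 * (3 + r) := by rw [h1, ← h]; ring
        have h3 : ¬ Nat.Prime (2 * (3 + r)) := Nat.not_prime_mul (by norm_num) (by omega)
        exact h3 (h2 ▸ hp)
    have hr2 := hr.two_le
    have h13 : 13 ≤ max p (max q r) := le_max_of_le_left (by omega)
    have hm : maxCoeff 1 (-3) (-2) = 3 := by decide
    rw [hm] at hle
    have h13' : (13 : ℝ) ≤ ((max p (max q r) : ℕ) : ℝ) := by exact_mod_cast h13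
    have h4 : (13 : ℝ) ≤ (3 : ℝ) ^ μ := by
      have := h13'.trans hle
      simpa using this
    rw [div_le_iff₀ hlog3]
    calc Real.log 13 ≤ Real.log ((3 : ℝ) ^ μ) := Real.log_le_log (by norm_num) h4
      _ = μ * Real.log 3 := Real.log_rpow (by norm_num) μ
  refine ⟨key, fun hM => ?_⟩
  unfold bakerConstant at hM
  rcases Set.eq_empty_or_nonempty {μ : ℝ | Good μ} with hempty | hne
  · rw [hempty, Real.sInf_empty] at hM
    norm_num at hM
  · have h5 : Real.log 13 / Real.log 3 ≤ sInf {μ : ℝ | Good μ} := le_csInf hne fun μ hμ => key μ hμ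
    rw [hM, div_le_iff₀ hlog3, one_mul] at h5
    have h6 : Real.log 3 < Real.log 13 := Real.log_lt_log (by norm_num) (by norm_num)
    linarith

end Pool.Agent.Results.MP_3923f3_nt.BakerLower
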